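import Pool.Agent.J6H17.RF.Stm

/-!
# RF-TG: the theory of a proof system is a theory
-/

set_option autoImplicit false

namespace Pool.Agent.J6H27.RF.Tg

open Pool.Agent.NPC Pool.Agent.H628R3.RO Pool.Agent.J6H17.RF

/-- the string `w` for which the tree may be that of `axm μ w e x z` -/
def wT (t : T) : List Bool :=
  match (TDec.dec t.tl.hd.tl.hd.tl : Option ℕ) with
  | none => []
  | some c => (c.bits.reverse.tail).reverse

/-- the string `w` for which the string may be the code of `axm μ w e x z` -/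
def wOf (y : List Bool) : List Bool :=
  match parse y with
  | none => []
  | some t => wT t

theorem poly_wT : Poly wT :=
  (Poly.optCases (o := fun t : T => (TDec.dec t.tl.hd.tl.hd.tl : Option ℕ))
    (g := fun _ => ([] : List Bool)) (h := fun _ c => (c.bits.reverse.tail).reverse)
    (TDec.poly_dec.comp (Poly.tl (Poly.hd (Poly.tl (Poly.hd (Poly.tl Poly.id))))))
    (Pool.Agent.NPC.Poly.const _)
    (Poly.reverse (Poly.tail (Poly.reverse (Poly.natBits (Poly.snd Poly.id)))))).congr fun t => by
      unfold wT; cases (TDec.dec t.tl.hd.tl.hd.tl : Option ℕ) <;> rfl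

theorem poly_wOf : Poly wOf :=
  (Poly.optCases (o := parse) (g := fun _ => ([] : List Bool)) (h := fun _ t => wT t)
    poly_parse (Pool.Agent.NPC.Poly.const _) (poly_wT.comp (Poly.snd Poly.id))).congr fun y => by
      unfold wOf; cases parse y <;> rfl

theorem code_axm (μ : Fm) (w : List Bool) (e x z : ℕ) :
    ((toT (axm μ w e x z)).tl.hd.tl.hd.tl : T) = toT (codeN w) := rfl

theorem wOf_axm (h : ∀ w : List Bool, (codeN w).bits = w ++ [true]) (μ : Fm) (w : List Bool)
    (e x z : ℕ) : wOf (bits (axm μ w e x z)) = w := by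
  have h1 : parse (bits (axm μ w e x z)) = some (toT (axm μ w e x z)) := parse_enc _
  unfold wOf
  rw [h1]
  change wT (toT (axm μ w e x z)) = w
  unfold wT
  rw [code_axm, TDec.dec_toT]
  change ((codeN w).bits.reverse.tail).reverse = w
  rw [h w]
  simp

/-- the test of a string `y`; the arguments are the verdict of the base theory, `w`, `g w` -/
def test (μ : Fm) (y b w v : List Bool) : List Bool :=
  if b = [true] then [true] else
    match unbits (ℕ × ℕ × ℕ) v with
    | none => []
    | some q => if parse y = some (toT (axm μ w q.1 q.2.1 q.2.2)) then [true] else []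

theorem poly_axm (h1 : S_NUM) (h2 : S_SPOLY) (μ : Fm) :
    Poly (fun a : List Bool × ℕ × ℕ × ℕ => axm μ a.1 a.2.1 a.2.2.1 a.2.2.2) := by
  obtain ⟨hnum, hcode, -⟩ := h1
  obtain ⟨hsub, himp, -, heq, -, -, hvar⟩ := h2
  have hc : Poly (fun a : List Bool × ℕ × ℕ × ℕ => Tm.var (codeN a.1)) :=
    hvar _ _ (hcode.comp (Poly.fst Poly.id))
  refine himp _ _ _ (heq _ _ _ hc hc) ?_
  unfold at3
  refine hsub _ μ (fun (a : List Bool × ℕ × ℕ × ℕ) i => if i = 0 then num a.2.1 else
    if i = 2 then num a.2.2.1 else if i = 3 then num a.2.2.2 else Tm.var i) fun i => ?_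
  by_cases h0 : i = 0
  · simp only [if_pos h0]
    exact hnum.comp (Poly.fst (Poly.snd Poly.id))
  · by_cases h2 : i = 2
    · simp only [if_neg h0, if_pos h2]
      exact hnum.comp (Poly.fst (Poly.snd (Poly.snd Poly.id)))
    · by_cases h3 : i = 3
      · simp only [if_neg h0, if_neg h2, if_pos h3]
        exact hnum.comp (Poly.snd (Poly.snd (Poly.snd Poly.id)))
      · simp only [if_neg h0, if_neg h2, if_neg h3]
        exact Pool.Agent.NPC.Poly.const _

theorem poly_test (h1 : S_NUM) (h2 : S_SPOLY) (μ : Fm) :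
    Poly (fun p : List Bool × List Bool × List Bool × List Bool =>
      test μ p.1 p.2.1 p.2.2.1 p.2.2.2) := by
  unfold test
  refine Poly.ite (Poly.decide_eq (Poly.fst (Poly.snd Poly.id)) (Pool.Agent.NPC.Poly.const _)) (Pool.Agent.NPC.Poly.const _) ?_
  refine (Poly.optCases (o := fun p : List Bool × List Bool × List Bool × List Bool =>
    unbits (ℕ × ℕ × ℕ) p.2.2.2) (g := fun _ => ([] : List Bool))
    (h := fun p q => if parse p.1 = some (toT (axm μ p.2.2.1 q.1 q.2.1 q.2.2)) then [true] else [])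
    (poly_unbits.comp (Poly.snd (Poly.snd (Poly.snd Poly.id)))) (Pool.Agent.NPC.Poly.const _) ?_).congr
    fun p => ?_
  · refine Poly.ite (Poly.decide_eq (poly_parse.comp (Poly.fst (Poly.fst Poly.id)))
      (Poly.some (Poly.toT' ?_))) (Pool.Agent.NPC.Poly.const _) (Pool.Agent.NPC.Poly.const _)
    exact (poly_axm h1 h2 μ).comp (f := fun p : (List Bool × List Bool × List Bool × List Bool) ×
      (ℕ × ℕ × ℕ) => (p.1.2.2.1, p.2)) (Poly.pair (Poly.fst (Poly.snd (Poly.snd (Poly.fst
        Poly.id)))) (Poly.snd Poly.id))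
  · cases unbits (ℕ × ℕ × ℕ) p.2.2.2 <;> rfl

/-- RF-TG. -/
theorem main (h1 : S_NUM) (h2 : S_SPOLY) (h3 : S_OPC) : S_TG := by
  intro A B μ g hB hg
  obtain ⟨hlog, D, hD, hDB⟩ := hB
  refine ⟨fun φ hφ => Or.inl (hlog φ hφ), ?_⟩
  obtain ⟨hcomp, hpair, hpoly, hof, hto, -⟩ := h3 A
  refine ⟨fun y => test μ y (D y) (wOf y) (g (wOf y)), ?_, ?_⟩
  · apply hto
    have hw : OP A wOf := hpoly _ _ _ poly_wOf
    have hid : OP A (fun y : List Bool => y) := hpoly _ _ _ Poly.id
    have hgw : OP A (fun y => g (wOf y)) := hcomp _ _ _ _ _ hw (hof g hg)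
    have hall : OP A (fun y => (y, D y, wOf y, g (wOf y))) :=
      hpair _ _ _ _ _ hid (hpair _ _ _ _ _ (hof D hD) (hpair _ _ _ _ _ hw hgw))
    exact hcomp _ _ _ _ _ hall (hpoly _ _ _ (poly_test h1 h2 μ))
  · intro y
    constructor
    · intro h
      change test μ y (D y) (wOf y) (g (wOf y)) = [true] at h
      unfold test at h
      by_cases hb : D y = [true]
      · obtain ⟨φ, hφ, hy⟩ := (hDB y).1 hb
        exact ⟨φ, Or.inl hφ, hy⟩
      · rw [if_neg hb] at h
        cases hq : unbits (ℕ × ℕ × ℕ) (g (wOf y)) with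
        | none => rw [hq] at h; exact absurd h (by simp)
        | some q =>
          rw [hq] at h
          change (if parse y = some (toT (axm μ (wOf y) q.1 q.2.1 q.2.2)) then [true] else [])
            = [true] at h
          by_cases hp : parse y = some (toT (axm μ (wOf y) q.1 q.2.1 q.2.2))
          · exact ⟨axm μ (wOf y) q.1 q.2.1 q.2.2,
              Or.inr ⟨wOf y, q.1, q.2.1, q.2.2, (bits_of_unbits hq).symm, rfl⟩, enc_of_parse hp⟩
          · rw [if_neg hp] at h
            exact absurd h (by simp)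
    · rintro ⟨φ, hφ | ⟨w, e, x, z, hgw, rfl⟩, rfl⟩
      · have hb : D (bits φ) = [true] := (hDB _).2 ⟨φ, hφ, rfl⟩
        simp only [test, hb, if_true]
      · have hw := wOf_axm h1.2.2 μ w e x z
        by_cases hb : D (bits (axm μ w e x z)) = [true]
        · simp only [test, hb, if_true]
        · have hq : unbits (ℕ × ℕ × ℕ) (g w) = some (e, x, z) := by rw [hgw, unbits_bits]
          have hp : parse (bits (axm μ w e x z)) = some (toT (axm μ w e x z)) := parse_enc _
          simp only [test, hw, hq, hp, hb, if_false, if_true]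

end Pool.Agent.J6H27.RF.Tg
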