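import Pool.Agent.J6H50.RF.Stm

/-!
# RF-11: the formula `one`
-/

set_option autoImplicit false

namespace Pool.Agent.J6H27.RF11

open Pool.Agent.J6H50.RF Pool.Agent.NPC

theorem sb_neg {b : Bool} {φ : Fm} (h : Sb (!b) φ) : Sb b (Fm.neg φ) := Sb.imp b h (Sb.bot b)

theorem sb_and {φ ψ : Fm} (h : Sb true φ) (h' : Sb true ψ) : Sb true (Fm.and φ ψ) :=
  sb_neg (b := true) (Sb.imp false h (sb_neg (b := false) h'))

theorem sb_exLe {i : ℕ} {t : Tm} {φ : Fm} (hi : ¬ t.Occ i) (h : Sb true φ) :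
    Sb true (Fm.exLe i t φ) :=
  sb_neg (b := true) (Sb.bdd i t hi (sb_neg (b := false) h))

theorem free_exLe {i k : ℕ} {t : Tm} {φ : Fm} (h : (Fm.exLe k t φ).Free i) :
    i ≠ k ∧ (t.Occ i ∨ φ.Free i) := by
  simp only [Fm.exLe, Fm.neg, Fm.Free, Tm.Occ, or_false] at h
  obtain ⟨h1, (h2 | h2) | h2⟩ := h
  · exact absurd h2 h1
  · exact ⟨h1, Or.inl h2⟩
  · exact ⟨h1, Or.inr h2⟩

theorem free_and {i : ℕ} {φ ψ : Fm} (h : (Fm.and φ ψ).Free i) : φ.Free i ∨ ψ.Free i := by
  simpa only [Fm.and, Fm.neg, Fm.Free, or_false] using h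

theorem sat_exLe (i : ℕ) (t : Tm) (φ : Fm) (v : ℕ → ℕ) : (Fm.exLe i t φ).Sat Nn v ↔
    ∃ x : ℕ, x ≤ t.val Nn (Function.update v i x) ∧ φ.Sat Nn (Function.update v i x) := by
  simp only [Fm.exLe, Fm.neg, Fm.Sat, Tm.val, Function.update_self]
  change ((∀ x : ℕ, x ≤ t.val Nn (Function.update v i x) →
    (φ.Sat Nn (Function.update v i x) → False)) → False) ↔ _
  constructor
  · intro h
    by_contra h'
    exact h fun x h1 h2 => h' ⟨x, h1, h2⟩
  · rintro ⟨x, h1, h2⟩ h
    exact h x h1 h2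

theorem sat_and (φ ψ : Fm) (v : ℕ → ℕ) :
    (Fm.and φ ψ).Sat Nn v ↔ φ.Sat Nn v ∧ ψ.Sat Nn v := by
  simp only [Fm.and, Fm.neg, Fm.Sat]
  tauto

/-- the valuation -/
def vv (v : ℕ → ℕ) (j y a x z u : ℕ) : ℕ → ℕ := fun i => if i = 0 then a else if i = 1 then x else
  if i = 2 then z else if i = 3 then u else if i = j + 4 then y else v i

theorem upd_eq (v : ℕ → ℕ) (j y a x z u : ℕ) :
    Function.update (Function.update (Function.update (Function.update
      (Function.update v (j + 4) y) 0 a) 1 x) 2 z) 3 u = vv v j y a x z u := by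
  funext i
  simp only [Function.update_apply, vv]
  split_ifs <;> omega

theorem m11 : S_one := by
  rintro ⟨-, -, -, hle, hval⟩
  refine ⟨fun j P hP => ?_, fun j P hP i hi => ?_, fun j P v => ?_⟩
  · unfold one
    refine sb_exLe (by simp only [Tm.Occ]; omega) (sb_and (Sb.eq _ _ _) ?_)
    refine sb_exLe (by simp only [Tm.Occ]; omega) (sb_exLe (by simp only [Tm.Occ]; omega)
      (sb_exLe (by simp only [Tm.Occ]; omega) (sb_exLe (by simp only [Tm.Occ]; omega) ?_)))
    exact sb_and (Sb.eq _ _ _) hP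
  · unfold one at hi
    obtain ⟨h1, h2 | h2⟩ := free_exLe hi
    · exact h2
    · rcases free_and h2 with h3 | h3
      · rcases h3 with h3 | h3
        · exact absurd h3 h1
        · exact h3
      · exfalso
        obtain ⟨g0, g | g⟩ := free_exLe h3
        · exact h1 g
        obtain ⟨g1, g | g⟩ := free_exLe g
        · exact h1 g
        obtain ⟨g2, g | g⟩ := free_exLe g
        · exact h1 g
        obtain ⟨g3, g | g⟩ := free_exLe g
        · exact h1 g
        rcases free_and g with g | g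
        · rcases g with g | g
          · exact h1 g
          · simp only [qdT, prT, Tm.Occ] at g
            omega
        · have := hP i g
          omega
  · change (one j P).Sat Nn v ↔ ∃ a x z u, v 1 = qd a x z u ∧ P.Sat Nn (vv v j (v 1) a x z u)
    unfold one
    rw [sat_exLe]
    constructor
    · rintro ⟨y, -, h⟩
      obtain ⟨h1, h⟩ := (sat_and _ _ _).1 h
      have h1' : y = v 1 := by
        simp only [Fm.Sat, Tm.val, Function.update_self] at h1
        rw [h1, Function.update_of_ne (by omega)]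
      obtain ⟨a, -, h⟩ := (sat_exLe _ _ _ _).1 h
      obtain ⟨x, -, h⟩ := (sat_exLe _ _ _ _).1 h
      obtain ⟨z, -, h⟩ := (sat_exLe _ _ _ _).1 h
      obtain ⟨u, -, h⟩ := (sat_exLe _ _ _ _).1 h
      obtain ⟨h2, h3⟩ := (sat_and _ _ _).1 h
      rw [upd_eq] at h2 h3
      refine ⟨a, x, z, u, ?_, h1' ▸ h3⟩
      simp only [Fm.Sat, Tm.val] at h2
      rw [hval] at h2
      simpa [vv, h1'] using h2
    · rintro ⟨a, x, z, u, h1, h2⟩
      obtain ⟨l1, l2, l3, l4⟩ := hle a x z u
      rw [← h1] at l1 l2 l3 l4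
      refine ⟨v 1, ?_, (sat_and _ _ _).2 ⟨?_, ?_⟩⟩
      · simp only [Tm.val]
        rw [Function.update_of_ne (by omega)]
      · simp only [Fm.Sat, Tm.val, Function.update_self]
        rw [Function.update_of_ne (by omega)]
      · refine (sat_exLe _ _ _ _).2 ⟨a, ?_, (sat_exLe _ _ _ _).2 ⟨x, ?_, (sat_exLe _ _ _ _).2
          ⟨z, ?_, (sat_exLe _ _ _ _).2 ⟨u, ?_, (sat_and _ _ _).2 ⟨?_, ?_⟩⟩⟩⟩⟩
        · simpa [Tm.val, Function.update_apply] using l1
        · simpa [Tm.val, Function.update_apply] using l2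
        · simpa [Tm.val, Function.update_apply] using l3
        · simpa [Tm.val, Function.update_apply] using l4
        · rw [upd_eq]
          simp only [Fm.Sat, Tm.val]
          rw [hval]
          simpa [vv] using h1
        · rw [upd_eq]
          exact h2

end Pool.Agent.J6H27.RF11
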